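import Mathlib

/-!
Heights: orbits of polynomials and zeros of polynomials.
-/

set_option autoImplicit false

namespace Pool.Agent.Q309.KS

open MvPolynomial Height Filter

section general

variable {K : Type*} [Field K]

/-- homogenization in degree `d` -/
noncomputable def homg (ρ : Polynomial K) (d : ℕ) : MvPolynomial (Fin 2) K :=
  ∑ i ∈ Finset.range (d + 1), C (ρ.coeff i) * X 0 ^ i * X 1 ^ (d - i)

theorem homg_hom (ρ : Polynomial K) (d : ℕ) : (homg ρ d).IsHomogeneous d := by
  refine IsHomogeneous.sum _ _ _ fun i hi => ?_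
  have hi' : i ≤ d := by
    have := Finset.mem_range.1 hi
    omega
  have h1 : (C (ρ.coeff i) * X 0 ^ i * X 1 ^ (d - i) : MvPolynomial (Fin 2) K).IsHomogeneous
      (0 + 1 * i + 1 * (d - i)) :=
    ((isHomogeneous_C _ _).mul ((isHomogeneous_X K 0).pow i)).mul ((isHomogeneous_X K 1).pow _)
  have h2 : 0 + 1 * i + 1 * (d - i) = d := by omega
  rwa [h2] at h1

theorem homg_eval (ρ : Polynomial K) {d : ℕ} (hd : ρ.natDegree ≤ d) (t : K) :
    eval ![t, 1] (homg ρ d) = ρ.eval t := by
  unfold homg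
  rw [map_sum, Polynomial.eval_eq_sum_range' (Nat.lt_succ_of_le hd)]
  refine Finset.sum_congr rfl fun i _ => ?_
  simp

variable [AdmissibleAbsValues K]

theorem ht_lower_aux (g1 g2 : Polynomial K) (hco : IsCoprime g1 g2) {δ : ℕ}
    (hd1 : g1.natDegree ≤ δ) (hδ : g2.natDegree = δ) (h1 : 1 ≤ δ) :
    ∃ C : ℝ, ∀ t : K, C + δ * logHeight₁ t ≤ logHeight ![g1.eval t, g2.eval t] := by
  classical
  obtain ⟨v1, v2, hv⟩ := hco
  set M : ℕ := max (δ - 1) (max v1.natDegree v2.natDegree) with hM
  have hM1 : δ - 1 ≤ M := le_max_left _ _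
  have hMv1 : v1.natDegree ≤ M := (le_max_left _ _).trans (le_max_right _ _)
  have hMv2 : v2.natDegree ≤ M := (le_max_right _ _).trans (le_max_right _ _)
  set a1 : Polynomial K := Polynomial.X ^ (M + δ) * v1 with ha1
  have hdiv : g2 * (a1 / g2) + a1 % g2 = a1 := EuclideanDomain.div_add_mod _ _
  have hr : (a1 % g2).natDegree ≤ δ - 1 := by
    have := Polynomial.natDegree_mod_lt a1 (q := g2) (by omega)
    omega
  have hg20 : g2 ≠ 0 := by
    rintro rfl
    simp at hδ
    omega
  set a2 : Polynomial K := (a1 / g2) * g1 + Polynomial.X ^ (M + δ) * v2 with ha2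
  have hid : (a1 % g2) * g1 + a2 * g2 = Polynomial.X ^ (M + δ) := by
    have h2 : (Polynomial.X : Polynomial K) ^ (M + δ) =
        Polynomial.X ^ (M + δ) * (v1 * g1 + v2 * g2) := by rw [hv, mul_one]
    rw [h2, ha2]
    linear_combination g1 * hdiv + g1 * ha1
  have hu : a2.natDegree ≤ M := by
    by_cases h0 : a2 = 0
    · rw [h0]
      simp
    have h2 : (a2 * g2).natDegree = a2.natDegree + δ := by
      rw [Polynomial.natDegree_mul h0 hg20, hδ]
    have h3 : a2 * g2 = Polynomial.X ^ (M + δ) - (a1 % g2) * g1 := by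
      rw [← hid]
      ring
    have h4 : (Polynomial.X ^ (M + δ) - (a1 % g2) * g1).natDegree ≤ M + δ := by
      refine (Polynomial.natDegree_sub_le _ _).trans (max_le ?_ ?_)
      · rw [Polynomial.natDegree_X_pow]
      · refine (Polynomial.natDegree_mul_le).trans ?_
        omega
    rw [← h3, h2] at h4
    omega
  let q : Fin 2 × Fin 2 → MvPolynomial (Fin 2) K := fun a =>
    if a.1 = 0 then (if a.2 = 0 then homg (a1 % g2) M else homg a2 M)
    else (if a.2 = 0 then homg v1 M else homg v2 M)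
  have hq : ∀ a, (q a).IsHomogeneous M := by
    intro a
    simp only [q]
    split_ifs
    all_goals exact homg_hom _ _
  obtain ⟨C, hC⟩ := logHeight_eval_ge' (K := K) (M := M) (N := δ) hq
  refine ⟨C, fun t => ?_⟩
  let p : Fin 2 → MvPolynomial (Fin 2) K := fun j => if j = 0 then homg g1 δ else homg g2 δ
  have h2 := hC p (x := ![t, 1]) (by
    intro k
    rw [Fin.sum_univ_two]
    fin_cases k
    · simp only [q, p, Fin.zero_eta, Fin.isValue, if_true, one_ne_zero, if_false]
      rw [homg_eval _ hu, homg_eval _ hδ.le, homg_eval _ (hr.trans hM1), homg_eval _ hd1]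
      have h3 := congrArg (Polynomial.eval t) hid
      simp only [Polynomial.eval_add, Polynomial.eval_mul, Polynomial.eval_pow,
        Polynomial.eval_X] at h3
      simp
      exact h3
    · simp only [q, p, Fin.mk_one, Fin.isValue, if_true, one_ne_zero, if_false]
      rw [homg_eval _ hMv1, homg_eval _ hMv2, homg_eval _ hδ.le, homg_eval _ hd1]
      have h3 := congrArg (Polynomial.eval t) hv
      simp only [Polynomial.eval_add, Polynomial.eval_mul, Polynomial.eval_one] at h3
      simp
      exact h3)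
  rw [← logHeight₁_eq_logHeight] at h2
  have h3 : (fun j => eval ![t, 1] (p j)) = ![g1.eval t, g2.eval t] := by
    funext j
    fin_cases j
    · simp only [p, Fin.zero_eta, if_true]
      rw [homg_eval _ hd1]
      rfl
    · simp only [p, Fin.mk_one, Fin.isValue, one_ne_zero, if_false]
      rw [homg_eval _ hδ.le]
      rfl
  rw [h3] at h2
  exact h2

/-- **The height of the value of a rational function.** -/
theorem ht_lower (g1 g2 : Polynomial K) (hco : IsCoprime g1 g2) {δ : ℕ}
    (hδ : max g1.natDegree g2.natDegree = δ) (h1 : 1 ≤ δ) :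
    ∃ C : ℝ, ∀ t : K, C + δ * logHeight₁ t ≤ logHeight ![g1.eval t, g2.eval t] := by
  rcases le_total g1.natDegree g2.natDegree with h | h
  · rw [max_eq_right h] at hδ
    exact ht_lower_aux g1 g2 hco (h.trans hδ.le) hδ h1
  · rw [max_eq_left h] at hδ
    obtain ⟨C, hC⟩ := ht_lower_aux g2 g1 hco.symm (h.trans hδ.le) hδ h1
    refine ⟨C, fun t => ?_⟩
    rw [logHeight_swap]
    exact hC t

/-- **The height of a zero of a polynomial.** -/
theorem ht_root (r : ℕ) : ∃ C : ℝ, ∀ (t : K) (y : Fin (r + 2) → K), y (Fin.last (r + 1)) ≠ 0 →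
    ∑ i, y i * t ^ (i : ℕ) = 0 → logHeight₁ t ≤ C + logHeight y := by
  classical
  let A : Fin 2 × (Fin (r + 2) × Fin (r + 1)) → K := fun a =>
    if a.1 = 0 then (if a.2.1 = Fin.castSucc a.2.2 then -1 else 0)
    else (if a.2 = (Fin.last (r + 1), 0) then 1 else 0)
  let p : Fin (r + 1) → MvPolynomial (Fin 2) K := fun j => X 0 ^ (j : ℕ) * X 1 ^ (r - j)
  have hp : ∀ j, (p j).IsHomogeneous r := by
    intro j
    have h1 : (p j).IsHomogeneous (1 * (j : ℕ) + 1 * (r - j)) :=
      ((isHomogeneous_X K 0).pow _).mul ((isHomogeneous_X K 1).pow _)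
    have h2 : 1 * (j : ℕ) + 1 * (r - j) = r := by
      have := j.2
      omega
    rwa [h2] at h1
  obtain ⟨C1, hC1⟩ := logHeight_eval_le' hp
  refine ⟨totalWeight K * Real.log (Nat.card (Fin (r + 2) × Fin (r + 1))) + logHeight A + C1,
    fun t y hy hsum => ?_⟩
  let τ : Fin (r + 1) → K := fun j => t ^ (j : ℕ)
  have hτ : τ ≠ 0 := by
    intro h0
    have := congrFun h0 0
    simp [τ] at this
  have hy0 : y ≠ 0 := by
    intro h0
    exact hy (congrFun h0 _)
  have hτh : logHeight τ ≤ C1 + r * logHeight₁ t := by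
    have h1 := hC1 ![t, 1]
    rw [← logHeight₁_eq_logHeight] at h1
    convert h1 using 2
    funext j
    simp [p, τ]
  have h2 := logHeight_linearMap_apply_le A (fun a : Fin (r + 2) × Fin (r + 1) => y a.1 * τ a.2)
  rw [logHeight_fun_mul_eq hy0 hτ] at h2
  have h3 : (fun j => ∑ i : Fin (r + 2) × Fin (r + 1), A (j, i) * (y i.1 * τ i.2)) =
      (y (Fin.last (r + 1))) • ![t ^ (r + 1), 1] := by
    funext j
    fin_cases j
    · simp only [A, Fin.zero_eta, if_true, ite_mul, zero_mul, neg_mul, one_mul]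
      rw [Fintype.sum_prod_type_right]
      simp only [Finset.sum_ite_eq', Finset.mem_univ, if_true]
      rw [Fin.sum_univ_castSucc] at hsum
      simp only [Fin.val_castSucc, Fin.val_last] at hsum
      simp only [τ, Pi.smul_apply, Matrix.cons_val_zero, smul_eq_mul]
      rw [Finset.sum_neg_distrib]
      linear_combination -hsum
    · simp [A, τ]
  rw [h3, logHeight_smul_eq_logHeight _ hy, ← logHeight₁_eq_logHeight, logHeight₁_pow] at h2
  push_cast at h2
  linarith

end general

/-- **Orbits of rational functions.** -/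
theorem ht_orbit {K : Type*} [Field K] [NumberField K] {g1 g2 : Polynomial K}
    (hco : IsCoprime g1 g2) {δ : ℕ} (hδ : max g1.natDegree g2.natDegree = δ) (h2 : 2 ≤ δ)
    {t : ℕ → K} (ht : Function.Injective t)
    (hρ : ∀ m, g2.eval (t m) ≠ 0 ∧ t (m + 1) * g2.eval (t m) = g1.eval (t m)) :
    ∃ m0 : ℕ, ∀ m, (δ : ℝ) ^ m ≤ logHeight₁ (t (m0 + m)) := by
  obtain ⟨C, hC⟩ := ht_lower g1 g2 hco hδ (by omega)
  set B : ℝ := |C| + 1 with hB
  obtain ⟨m0, hm0⟩ : ∃ m0, B < logHeight₁ (t m0) := by
    by_contra hcon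
    push Not at hcon
    have h1 : (Set.range t).Finite :=
      (NumberField.finite_setOfPred_logHeight₁_le (K := K) B).subset (by
        rintro _ ⟨m, rfl⟩
        exact hcon m)
    exact Set.infinite_range_of_injective ht h1
  have hδ2 : (2 : ℝ) ≤ δ := by exact_mod_cast h2
  have hstep : ∀ m, (δ : ℝ) ^ m + |C| ≤ logHeight₁ (t (m0 + m)) := by
    intro m
    induction m with
    | zero =>
      rw [pow_zero, add_zero]
      linarith
    | succ m ih =>
      have h3 := hC (t (m0 + m))
      rw [← logHeight₁_div_eq_logHeight, div_eq_of_eq_mul (hρ _).1 (hρ _).2.symm] at h3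
      have h4 : (δ : ℝ) * ((δ : ℝ) ^ m + |C|) ≤ δ * logHeight₁ (t (m0 + m)) :=
        mul_le_mul_of_nonneg_left ih (by linarith)
      have h5 := neg_abs_le C
      have h6 : 2 * |C| ≤ δ * |C| := mul_le_mul_of_nonneg_right hδ2 (abs_nonneg C)
      have h7 : t (m0 + (m + 1)) = t (m0 + m + 1) := rfl
      rw [h7, pow_succ]
      nlinarith
  refine ⟨m0, fun m => ?_⟩
  have := hstep m
  have := abs_nonneg C
  linarith

end Pool.Agent.Q309.KS
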