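import Pool.Agent.Q309.KS.Ht
import Pool.Agent.Results.MP_0e7dfd_ag.RecursiveOrbits

/-!
The Kawaguchi-Silverman conjecture for orbits which satisfy linear recurrences.
-/

set_option autoImplicit false

namespace Pool.Agent.Q309.KS

open MvPolynomial Height Filter
open Pool.Agent.TH8.OR (iter GivenBy Invertible PRecD eval_scale)
open Pool.Agent.Results.MP_0e7dfd_ag.RecursiveOrbits (DenseOrbit OrbitOf Rec GraphDense)

variable {k : Type} [Field k] {N : ℕ} {p : Ideal (MvPolynomial (Fin (N + 1)) k)}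
  {F : Fin (N + 1) → MvPolynomial (Fin (N + 1)) k} {x : ℕ → Fin (N + 1) → k}

/-- the points of the orbit from some point on are dense -/
theorem tail_dense (h : DenseOrbit p F x) (m1 : ℕ) : ∀ (e : ℕ)
    (G : MvPolynomial (Fin (N + 1)) k), G.IsHomogeneous e → (∀ m, m1 ≤ m → eval (x m) G = 0) →
      G ∈ p := by
  obtain ⟨d, hF⟩ := h.forms
  induction m1 with
  | zero =>
    intro e G hG h0
    exact (h.dense e G hG).1 fun m => h0 m (Nat.zero_le _)
  | succ m1 ih =>
    intro e G hG h0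
    rw [← h.dominant e G hG]
    refine ih _ _ (hG.aeval F hF) fun m hm => ?_
    obtain ⟨j, hj⟩ := Function.ne_iff.1 (h.ne_zero (m + 1))
    rw [Pi.zero_apply] at hj
    have h1 : (fun i => eval (x m) (F i)) =
        fun i => (eval (x m) (F j) / x (m + 1) j) * x (m + 1) i := by
      funext i
      rw [div_mul_eq_mul_div, eq_div_iff hj]
      exact h.orbit m i j
    have h2 : eval (x m) (aeval F G) = eval (fun i => eval (x m) (F i)) G := by
      rw [MvPolynomial.aeval_def, MvPolynomial.eval₂_eq_eval_map]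
      have h3 := MvPolynomial.eval₂_comp_left (eval (x m)) (algebraMap k _) F G
      rw [MvPolynomial.eval₂_eq_eval_map] at h3
      rw [h3]
      have h4 : (eval (x m)).comp (algebraMap k (MvPolynomial (Fin (N + 1)) k)) = RingHom.id k := by
        ext a
        simp [MvPolynomial.algebraMap_eq]
      rw [h4]
      rfl
    rw [h2, h1, eval_scale hG, h0 (m + 1) (by omega), mul_zero]

/-- **The heights of the points of the orbit.** -/
theorem ht_points [NumberField k] (h : DenseOrbit p F x) {t : ℕ → k} {g1 g2 : Polynomial k}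
    (hco : IsCoprime g1 g2) {δ : ℕ} (hδ : max g1.natDegree g2.natDegree = δ) (h2 : 2 ≤ δ)
    (ht : Function.Injective t)
    (hρ : ∀ m, g2.eval (t m) ≠ 0 ∧ t (m + 1) * g2.eval (t m) = g1.eval (t m))
    (hnd : ¬ GraphDense p t x) :
    ∃ c : ℝ, 0 < c ∧ ∃ᶠ m : ℕ in atTop, c * (δ : ℝ) ^ m ≤ logHeight (x m) := by
  classical
  unfold GraphDense at hnd
  push Not at hnd
  obtain ⟨e, P, hPe, hP0, i1, hi1⟩ := hnd
  -- the largest index
  obtain ⟨i0, hi0, hmax⟩ : ∃ i0, P.coeff i0 ∉ p ∧ ∀ i, i0 < i → P.coeff i ∈ p := by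
    let J : Finset ℕ := (Finset.range (P.natDegree + 1)).filter fun i => P.coeff i ∉ p
    have hJ : ∀ i, i ∈ J ↔ i < P.natDegree + 1 ∧ P.coeff i ∉ p := fun i => by
      rw [Finset.mem_filter, Finset.mem_range]
    have hne : J.Nonempty := by
      refine ⟨i1, (hJ i1).2 ⟨?_, hi1⟩⟩
      by_contra hcon
      apply hi1
      rw [Polynomial.coeff_eq_zero_of_natDegree_lt (by omega)]
      exact p.zero_mem
    refine ⟨J.max' hne, ((hJ _).1 (J.max'_mem hne)).2, fun i hi => ?_⟩
    by_contra hcon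
    by_cases hiP : i < P.natDegree + 1
    · have := J.le_max' i ((hJ i).2 ⟨hiP, hcon⟩)
      omega
    · apply hcon
      rw [Polynomial.coeff_eq_zero_of_natDegree_lt (by omega)]
      exact p.zero_mem
  have hon : ∀ i, i0 < i → ∀ m, eval (x m) (P.coeff i) = 0 := fun i hi =>
    (h.dense e _ (hPe i)).2 (hmax i hi)
  have hsum : ∀ m, ∑ i ∈ Finset.range (i0 + 1), eval (x m) (P.coeff i) * t m ^ i = 0 := by
    intro m
    have h3 := hP0 m
    rw [Polynomial.eval_eq_sum_range' (n := max (i0 + 1) (P.natDegree + 1)) (by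
      refine lt_of_le_of_lt (Polynomial.natDegree_map_le) ?_
      exact lt_of_lt_of_le (Nat.lt_succ_self _) (le_max_right _ _))] at h3
    rw [← h3]
    refine (Finset.sum_subset (Finset.range_mono (le_max_left _ _)) fun i _ hi => ?_).trans
      (Finset.sum_congr rfl fun i _ => ?_)
    · rw [hon i (Nat.lt_of_not_le fun h4 => hi (Finset.mem_range.2 (by omega))) m, zero_mul]
    · rw [Polynomial.coeff_map]
  have hfreq : ∃ᶠ m : ℕ in atTop, eval (x m) (P.coeff i0) ≠ 0 := by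
    intro hcon
    obtain ⟨m1, hm1⟩ := eventually_atTop.1 hcon
    exact hi0 (tail_dense h m1 e _ (hPe i0) fun m hm => not_not.1 (hm1 m hm))
  obtain ⟨r, rfl⟩ : ∃ r, i0 = r + 1 := by
    refine ⟨i0 - 1, ?_⟩
    by_contra hcon
    have h3 : i0 = 0 := by omega
    subst h3
    obtain ⟨m, hm⟩ := hfreq.exists
    have h4 := hsum m
    rw [zero_add, Finset.sum_range_one, pow_zero, mul_one] at h4
    exact hm h4
  obtain ⟨C1, hC1⟩ := ht_root (K := k) r
  obtain ⟨C2, hC2⟩ := logHeight_eval_le' (K := k) (N := e)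
    (p := fun i : Fin (r + 2) => P.coeff (i : ℕ)) fun i => hPe i
  obtain ⟨m0, hm0⟩ := ht_orbit hco hδ h2 ht hρ
  have hδ2 : (2 : ℝ) ≤ δ := by exact_mod_cast h2
  have hδ0 : (0 : ℝ) < δ := by linarith
  have hkey : ∀ m, eval (x (m0 + m)) (P.coeff (r + 1)) ≠ 0 →
      (δ : ℝ) ^ m ≤ C1 + C2 + e * logHeight (x (m0 + m)) := by
    intro m hm
    have h3 := hC1 (t (m0 + m)) (fun i : Fin (r + 2) => eval (x (m0 + m)) (P.coeff (i : ℕ))) (by
      simpa using hm) (by
      have h4 := hsum (m0 + m)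
      rw [Finset.sum_range] at h4
      exact h4)
    have h5 := hC2 (x (m0 + m))
    have h6 := hm0 m
    linarith
  refine ⟨1 / (2 * ((e : ℝ) + 1) * (δ : ℝ) ^ m0), by positivity, ?_⟩
  -- large indices
  have hlarge : ∀ᶠ m : ℕ in atTop, 2 * (C1 + C2) ≤ (δ : ℝ) ^ m :=
    (tendsto_pow_atTop_atTop_of_one_lt (by linarith)).eventually_ge_atTop _
  have hlarge2 : ∀ᶠ m : ℕ in atTop, 2 * (C1 + C2) ≤ (δ : ℝ) ^ (m - m0) :=
    (tendsto_sub_atTop_nat m0).eventually hlarge
  refine ((hfreq.and_eventually hlarge2).and_eventually (eventually_ge_atTop m0)).mono ?_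
  rintro m ⟨⟨hm1, hm2⟩, hm3⟩
  obtain ⟨l, rfl⟩ := Nat.exists_eq_add_of_le hm3
  rw [Nat.add_sub_cancel_left] at hm2
  have h3 := hkey l hm1
  have h4 : 0 ≤ logHeight (x (m0 + l)) := logHeight_nonneg _
  rw [div_mul_eq_mul_div, one_mul, div_le_iff₀ (by positivity), pow_add]
  have h5 : (0 : ℝ) < (δ : ℝ) ^ m0 := by positivity
  have h6 : (δ : ℝ) ^ l ≤ 2 * (((e : ℝ) + 1) * logHeight (x (m0 + l))) := by
    nlinarith
  calc (δ : ℝ) ^ m0 * (δ : ℝ) ^ l ≤ (δ : ℝ) ^ m0 * (2 * (((e : ℝ) + 1) * logHeight (x (m0 + l)))) :=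
        mul_le_mul_of_nonneg_left h6 h5.le
    _ = logHeight (x (m0 + l)) * (2 * ((e : ℝ) + 1) * (δ : ℝ) ^ m0) := by ring

end Pool.Agent.Q309.KS
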